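import Pool.Agent.Q296.BF.Deg
import Pool.Agent.Q296.BF.Tens
import Pool.Agent.Q52.SecX.Irr

/-!
# The degrees of zero-cycles on 100% of the hypersurfaces `∑ aⁱ F_i(x_i, t_i) = 0`

Let `K` be a number field, `r ≥ 1`, and let `F_0, …, F_{r-1}` be binary forms of degrees `d_i ≥ 3` and
`a` an integer of `K`.  Let `X` be the hypersurface

  `F_0(x_0, t_0) + a F_1(x_1, t_1) + a² F_2(x_2, t_2) + ⋯ + a^{r-1} F_{r-1}(x_{r-1}, t_{r-1}) = 0`.

If all `d_i` are equal to `n`, it is a hypersurface of degree `n` in the projective space of dimension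
`2 r - 1`, smooth if `a ≠ 0` and the `F_i` are separable: cubic surfaces (`r = 2`, `n = 3`), K3 surfaces
(`r = 2`, `n = 4`), cubic fourfolds (`r = 3`, `n = 3`), Fano fourfolds of degree five (`r = 3`, `n = 5`),
Fano varieties of dimension `2 p - 2` and degree `p` (`r = n = p` a prime) and so on.  In general it is a
hypersurface in a weighted projective space.

For a field `F` that contains `K` let `D(X_F) ⊆ ℤ` be the group of the degrees of the zero-cycles on
`X_F`.  It is generated by the degrees `[E : F]` of the finite extensions `E` of `F` over which `X` has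
a point.

Let `n` be the greatest common divisor of the `d_i` and suppose that `n` has no prime factor smaller
than `r`.  We prove, for every `M`: for all vectors `y = (a, F_0, …, F_{r-1})` of integers of `K` outside
a set of density zero, `a ≠ 0`, all the `F_i` are irreducible over `K`, `D(X_K) = n ℤ`, and
`D(X_{K_v}) = n ℤ` for at least `M` primes `v` of `K`.

So the degree is the same for all components of an element of the kernel of the map `b` of the problem
(pair it with the Brauer group of `K`), it is divisible by `n` because of the primes `v`, and every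
multiple of `n` is the degree of an element of the image of `a`.  Hence for 100% of these `X` the complex
is exact on degrees, in particular there are no elements of degree one in it, and Q1 is equivalent to
its part for the zero-cycles of degree zero.

Density zero is meant in the strong sense: for every `ε > 0` there is an ideal `I ≠ 0` of the ring
of integers `R` such that the exceptional vectors lie in at most `ε #(R/I) ^ N` residue classes
modulo `I`, where `N = 1 + ∑ (d_i + 1)` is the number of coefficients.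

Proof.  Let `v` be a prime such that `a` is divisible by `v` exactly once and all `F_i(x, 1)` are
irreducible of degree `d_i` modulo `v`.  The proportion of these vectors is at least
`(1/N v - 1/(N v)²) ∏ 1/(4 d_i)`.  The sum of the `1/N v` diverges, so almost all vectors have this
property for `M` primes `v`.  Let `E` be an extension of `K_v` of degree not divisible by `n`; its
ramification index `e` and its residue degree are not divisible by `n`.  So the `F_i` have no zeros
over the residue field of `E`, all their values at nonzero elements of `E²` have valuation divisible by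
`n`, and the valuations of the nonzero terms of the equation are `i e` modulo `n`.  They are different as
`i - j` is prime to `n` for `i ≠ j`, so `X` has no point over `E`.  The roots of the `F_i` give points
of degree `d_i`.
-/

open Polynomial NumberField IsDedekindDomain

namespace Pool.Agent.Results.MP_bd895b_nt.BinaryFormHypersurfaces

/-- the index set of the coefficients of `(a, F_0, …, F_{r-1})`, `deg F_i = d i`: `none` for `a`, and
`some ⟨i, l⟩` for the coefficient of `x ^ l t ^ (d i - l)` in the binary form `F_i` -/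
abbrev Idx {r : ℕ} (d : Fin r → ℕ) : Type := Option (Σ i : Fin r, Fin (d i + 1))

/-- the polynomial `F_i(x, 1)` of the vector `y` -/
noncomputable def poly {K : Type} [Field K] [NumberField K] {r : ℕ} {d : Fin r → ℕ}
    (y : Idx d → 𝓞 K) (i : Fin r) : K[X] :=
  ∑ l : Fin (d i + 1), C (algebraMap (𝓞 K) K (y (some ⟨i, l⟩))) * X ^ (l : ℕ)

/-- the value `F_i(x, t)` in the field `E`, where `φ : K → E` -/
noncomputable def form {K E : Type} [Field K] [NumberField K] [Field E] {r : ℕ} {d : Fin r → ℕ}
    (y : Idx d → 𝓞 K) (φ : K →+* E) (i : Fin r) (x t : E) : E :=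
  ∑ l : Fin (d i + 1), φ (algebraMap (𝓞 K) K (y (some ⟨i, l⟩))) * x ^ (l : ℕ) * t ^ (d i - l)

/-- the hypersurface `X`, `∑ aⁱ F_i(x_i, t_i) = 0`, has a point over `E`, where `φ : K → E`: the
equation has a nonzero solution in `E` -/
def HasPoint {K E : Type} [Field K] [NumberField K] [Field E] {r : ℕ} {d : Fin r → ℕ}
    (y : Idx d → 𝓞 K) (φ : K →+* E) : Prop :=
  ∃ x t : Fin r → E, (∃ i, x i ≠ 0 ∨ t i ≠ 0) ∧
    ∑ i : Fin r, φ (algebraMap (𝓞 K) K (y none)) ^ (i : ℕ) * form y φ i (x i) (t i) = 0

/-- the group `D(X_F)` of the degrees of the zero-cycles on `X_F`, where `φ : K → F`: it is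
generated by the degrees `[E : F]` of the finite extensions `E` of `F` over which `X` has a point -/
def DegreeGroup {K F : Type} [Field K] [NumberField K] [Field F] {r : ℕ} {d : Fin r → ℕ}
    (y : Idx d → 𝓞 K) (φ : K →+* F) : AddSubgroup ℤ :=
  AddSubgroup.closure {m : ℤ | ∃ (E : Type) (_ : Field E) (_ : Algebra F E)
    (_ : FiniteDimensional F E), HasPoint y ((algebraMap F E).comp φ) ∧ m = Module.finrank F E}

/-- the exceptional vectors -/
def Exceptional (K : Type) [Field K] [NumberField K] {r : ℕ} (d : Fin r → ℕ) (M : ℕ) :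
    Set (Idx d → 𝓞 K) :=
  {y | ¬ (y none ≠ 0 ∧ (∀ i, (poly y i).natDegree = d i ∧ Irreducible (poly y i)) ∧
    DegreeGroup y (RingHom.id K) = AddSubgroup.zmultiples ((Finset.univ.gcd d : ℕ) : ℤ) ∧
    ∃ T : Finset (HeightOneSpectrum (𝓞 K)), M ≤ T.card ∧ ∀ v ∈ T,
      DegreeGroup y (algebraMap K (v.adicCompletion K)) =
        AddSubgroup.zmultiples ((Finset.univ.gcd d : ℕ) : ℤ))}

/-- for every `ε > 0` the set `S` of vectors lies in at most `ε #(R/I) ^ |ι|` residue classes modulo
some nonzero ideal `I` of the ring of integers `R` of `K` -/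
def DensityZero {K ι : Type} [Field K] [NumberField K] [Fintype ι] (S : Set (ι → 𝓞 K)) : Prop :=
  ∀ ε : ℝ, 0 < ε → ∃ I : Ideal (𝓞 K), I ≠ ⊥ ∧ Finite (𝓞 K ⧸ I) ∧
    (Set.ncard ((fun (y : ι → 𝓞 K) i => Ideal.Quotient.mk I (y i)) '' S) : ℝ) ≤
      ε * (Nat.card (𝓞 K ⧸ I) : ℝ) ^ (Fintype.card ι)

section

variable {K : Type} [Field K] [NumberField K] {r : ℕ} {d : Fin r → ℕ}

lemma form_zero {E : Type} [Field E] (y : Idx d → 𝓞 K) (φ : K →+* E) (i : Fin r)
    (hd : d i ≠ 0) : form y φ i 0 0 = 0 := by
  apply Finset.sum_eq_zero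
  intro l _
  by_cases hl : (l : ℕ) = 0
  · have : d i - (l : ℕ) ≠ 0 := by omega
    rw [zero_pow this, mul_zero]
  · rw [zero_pow hl, mul_zero, zero_mul]

lemma form_one {E : Type} [Field E] (y : Idx d → 𝓞 K) (φ : K →+* E) (i : Fin r) (x : E) :
    form y φ i x 1 = eval₂ φ x (poly y i) := by
  rw [form, poly, eval₂_finsetSum]
  refine Finset.sum_congr rfl fun l _ => ?_
  rw [eval₂_mul, eval₂_C, eval₂_X_pow, one_pow, mul_one]

/-- the roots of the forms give points -/
lemma point_root {F : Type} [Field F] (y : Idx d → 𝓞 K) (φ : K →+* F) (hd : ∀ i, d i ≠ 0)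
    (i : Fin r) (hirr : Irreducible ((poly y i).map φ)) (hdeg : (poly y i).natDegree = d i) :
    ∃ (E : Type) (_ : Field E) (_ : Algebra F E) (_ : FiniteDimensional F E),
      HasPoint y ((algebraMap F E).comp φ) ∧ ((d i : ℕ) : ℤ) = Module.finrank F E := by
  classical
  have : Fact (Irreducible ((poly y i).map φ)) := ⟨hirr⟩
  have hfin : FiniteDimensional F (AdjoinRoot ((poly y i).map φ)) :=
    (AdjoinRoot.powerBasis hirr.ne_zero).finite
  refine ⟨AdjoinRoot ((poly y i).map φ), inferInstance, inferInstance, hfin,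
    ⟨Pi.single i (AdjoinRoot.root ((poly y i).map φ)), Pi.single i 1, ⟨i, Or.inr ?_⟩, ?_⟩, ?_⟩
  · rw [Pi.single_eq_same]
    exact one_ne_zero
  · rw [Finset.sum_eq_single i]
    · rw [Pi.single_eq_same, Pi.single_eq_same, form_one, ← eval₂_map]
      apply mul_eq_zero_of_right
      exact AdjoinRoot.eval₂_root _
    · intro k _ hk
      rw [Pi.single_eq_of_ne hk, Pi.single_eq_of_ne hk, form_zero _ _ _ (hd k), mul_zero]
    · intro h
      exact absurd (Finset.mem_univ i) h
  · rw [(AdjoinRoot.powerBasis hirr.ne_zero).finrank, AdjoinRoot.powerBasis_dim, natDegree_map, hdeg]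

lemma degreeGroup_eq {F : Type} [Field F] (y : Idx d → 𝓞 K) (φ : K →+* F) (hd : ∀ i, d i ≠ 0)
    (hirr : ∀ i, Irreducible ((poly y i).map φ)) (hdeg : ∀ i, (poly y i).natDegree = d i)
    (hpt : ∀ (E : Type) [Field E] [Algebra F E] [FiniteDimensional F E],
      HasPoint y ((algebraMap F E).comp φ) → Finset.univ.gcd d ∣ Module.finrank F E) :
    DegreeGroup y φ = AddSubgroup.zmultiples ((Finset.univ.gcd d : ℕ) : ℤ) := by
  apply le_antisymm
  · rw [DegreeGroup, AddSubgroup.closure_le]
    rintro m ⟨E, i1, i2, i3, hE, rfl⟩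
    obtain ⟨k, hk⟩ := hpt E hE
    rw [SetLike.mem_coe, Int.mem_zmultiples_iff, hk]
    push_cast
    exact dvd_mul_right _ _
  · rw [AddSubgroup.zmultiples_le]
    obtain ⟨c, hc⟩ := Int.subgroup_cyclic (DegreeGroup y φ)
    rw [← AddSubgroup.zmultiples_eq_closure] at hc
    rw [hc, Int.mem_zmultiples_iff, ← Int.natAbs_dvd, Int.natCast_dvd_natCast]
    apply Finset.dvd_gcd
    intro i _
    have h1 : ((d i : ℕ) : ℤ) ∈ DegreeGroup y φ :=
      AddSubgroup.subset_closure (point_root y φ hd i (hirr i) (hdeg i))
    rw [hc, Int.mem_zmultiples_iff, ← Int.natAbs_dvd, Int.natCast_dvd_natCast] at h1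
    exact h1

end

theorem result (K : Type) [Field K] [NumberField K] (r : ℕ) (d : Fin r → ℕ) (hd : ∀ i, 3 ≤ d i)
    (hn : ∀ p : ℕ, p.Prime → p ∣ Finset.univ.gcd d → r ≤ p) (M : ℕ) :
    DensityZero (Exceptional K d M) := by
  classical
  intro ε hε
  obtain ⟨I, hI, hfin, hcard⟩ := Pool.Agent.Q52.SecY.many_good (K := K) d hd (M + 1) ε hε
  refine ⟨I, hI, hfin, le_trans ?_ hcard⟩
  have hd0 : ∀ i, d i ≠ 0 := fun i => by
    have := hd i
    omega
  have hsub : Exceptional K d M ⊆
      {y : Pool.Agent.Q52.SecY.Idx d → 𝓞 K | ¬ ∃ T : Finset (HeightOneSpectrum (𝓞 K)),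
        T.card = M + 1 ∧ ∀ v ∈ T, (fun o => Ideal.Quotient.mk (v.asIdeal ^ 2) (y o)) ∈
          Pool.Agent.Q52.SecY.GoodM v d} := by
    intro y hy
    rintro ⟨T, hTc, hT⟩
    apply hy
    obtain ⟨v₀, hv₀⟩ : T.Nonempty := by
      rw [← Finset.card_pos, hTc]
      omega
    obtain ⟨h1, h2, h3⟩ := Pool.Agent.Q52.SecY.good_iff' v₀ d y (hT v₀ hv₀)
    have hinj : Function.Injective (algebraMap (𝓞 K) K) := IsFractionRing.injective (𝓞 K) K
    have ha0 : y none ≠ 0 := by
      intro h
      apply h2
      rw [h]
      exact zero_mem _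
    have hlast : ∀ i, y (some ⟨i, Fin.last (d i)⟩) ≠ 0 := by
      intro i h
      apply (h3 i).1
      rw [h]
      exact zero_mem _
    have hpoly : ∀ i, poly y i = Pool.Agent.TH377.Sup.pol
        (fun j => algebraMap (𝓞 K) K (y (some ⟨i, j⟩))) := fun i => rfl
    have hdeg : ∀ i, (poly y i).natDegree = d i := by
      intro i
      rw [hpoly]
      apply Pool.Agent.TH377.Sup.pol_natDegree
      rw [Ne, map_eq_zero_iff _ hinj]
      exact hlast i
    have hirr : ∀ i, Irreducible (poly y i) := by
      intro i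
      rw [hpoly, ← Pool.Agent.TH377.Sup.pol_map]
      refine Pool.Agent.Q52.SecX.irr_of_red v₀ (Pool.Agent.TH377.Sup.pol
        fun j => y (some ⟨i, j⟩)) ?_ (h3 i).2
      rw [Pool.Agent.TH377.Sup.pol_leadingCoeff (fun j => y (some ⟨i, j⟩)) (hlast i)]
      exact (h3 i).1
    have hloc : ∀ v ∈ T, ∀ (E : Type) [Field E] [Algebra (v.adicCompletion K) E]
        [FiniteDimensional (v.adicCompletion K) E],
        HasPoint y ((algebraMap (v.adicCompletion K) E).comp
          (algebraMap K (v.adicCompletion K))) →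
        Finset.univ.gcd d ∣ Module.finrank (v.adicCompletion K) E := by
      intro v hv E _ _ _ hpt
      obtain ⟨x, t, hne, heq⟩ := hpt
      by_contra hcon
      exact Pool.Agent.Q296.BF.compl_hyper v d y (hT v hv) (Finset.univ.gcd d) hd0
        (fun i => Finset.gcd_dvd (Finset.mem_univ i)) hn E hcon x t hne heq
    refine ⟨ha0, fun i => ⟨hdeg i, hirr i⟩, ?_, T, by omega, ?_⟩
    · apply degreeGroup_eq y (RingHom.id K) hd0 (fun i => by rw [Polynomial.map_id]; exact hirr i)
        hdeg
      intro E _ _ _ hpt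
      by_contra hcon
      obtain ⟨E', j1, j2, j3, ψ, hψ, hE'⟩ := Pool.Agent.Q296.BF.exists_above K
        (v₀.adicCompletion K) E _ hcon
      apply hE'
      apply hloc v₀ hv₀ E'
      obtain ⟨x, t, ⟨i, hi⟩, heq⟩ := hpt
      have hcomp : (algebraMap (v₀.adicCompletion K) E').comp
          (algebraMap K (v₀.adicCompletion K)) =
          ψ.comp ((algebraMap K E).comp (RingHom.id K)) := by
        ext c
        exact (hψ c).symm
      rw [hcomp]
      refine ⟨fun k => ψ (x k), fun k => ψ (t k), ⟨i, ?_⟩, ?_⟩
      · rw [_root_.map_ne_zero, _root_.map_ne_zero]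
        exact hi
      · have h5 := congrArg ψ heq
        rw [map_zero, map_sum] at h5
        rw [← h5]
        refine Finset.sum_congr rfl fun k _ => ?_
        rw [map_mul, map_pow, form, form, map_sum]
        congr 1
        refine Finset.sum_congr rfl fun l _ => ?_
        rw [map_mul, map_mul, map_pow, map_pow]
        rfl
    · intro v hv
      refine degreeGroup_eq y (algebraMap K (v.adicCompletion K)) hd0 (fun i => ?_) hdeg
        (hloc v hv)
      rw [hpoly, Pool.Agent.TH377.Sup.pol_map]
      exact Pool.Agent.Q296.BF.irr_compl v d y (hT v hv) i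
  have := Set.ncard_le_ncard (Set.image_mono (f := fun (y : Idx d → 𝓞 K) i =>
    Ideal.Quotient.mk I (y i)) hsub) (Set.toFinite _)
  exact_mod_cast this

end Pool.Agent.Results.MP_bd895b_nt.BinaryFormHypersurfaces
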