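import Pool.Agent.Q49.TL.LinkV
import Pool.Agent.Q49.TL.Tk
import Pool.Agent.Q177.TL.Line
import Pool.Agent.Q177.TL.Alg
import Pool.Agent.Q146.TL.Tr
import Pool.Agent.Q146.TL.Cst

set_option autoImplicit false

/-!
# Conics through two points over extensions of global function fields of degree prime to `ℓ`

Let `k` be a global function field, `ℓ` a prime number, `(i)_ℓ` the `ℓ`-part of `i`, and `f_j`
forms over `k` of degrees `d_j` in `n` variables. If
`∑_j (2 ∑_{i < d_j} i (i)_ℓ + d_j (d_j)_ℓ) < n + 2 (2)_ℓ` then any two points with coordinates in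
`k` of the projective variety `f = 0` are joined, over an extension of `k` of degree prime to `ℓ`,
by a conic or by two lines in this variety.

If the condition holds for all `ℓ`, then the group of zero-cycles of degree zero modulo rational
equivalence of `f = 0` is trivial, over `k` and over all algebraic extensions of `k`. The condition
holds for all `ℓ` for cubic forms with `14 ≤ n`, and for forms of degree `6` with `75 ≤ n`.

Co-authors: helper34, helper146, helper177, helper210, helper225.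
-/

namespace Pool.Agent.Results.MP_bd895b_nt.ConicsPrimeToL

open MvPolynomial

/-- The points `x` and `y` are joined by a conic `x + T z + T ^ 2 u y`, with `u ≠ 0`, in the
variety `f = 0`. -/
def JoinedByConic {ι κ K : Type} [Field K] (f : κ → MvPolynomial ι K) (x y : ι → K) : Prop :=
  ∃ (z : ι → K) (u : K), u ≠ 0 ∧ ∀ j, aeval (fun i => Polynomial.C (x i) +
      Polynomial.C (z i) * Polynomial.X + Polynomial.C (u * y i) * Polynomial.X ^ 2) (f j) = 0

/-- The points `x` and `y` are joined by the lines `x + T z` and `z + T y` in the variety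
`f = 0`. -/
def JoinedByTwoLines {ι κ K : Type} [Field K] (f : κ → MvPolynomial ι K) (x y : ι → K) : Prop :=
  ∃ z : ι → K, z ≠ 0 ∧
    (∀ j, aeval (fun i => Polynomial.C (x i) + Polynomial.C (z i) * Polynomial.X) (f j) = 0) ∧
    ∀ j, aeval (fun i => Polynomial.C (z i) + Polynomial.C (y i) * Polynomial.X) (f j) = 0

/-- The points `x` and `y` are joined by a conic or by two lines in the variety `f = 0`. -/
def Joined {ι κ K : Type} [Field K] (f : κ → MvPolynomial ι K) (x y : ι → K) : Prop :=
  JoinedByConic f x y ∨ JoinedByTwoLines f x y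

/-- The `ℓ`-part of `a`. -/
def part (ℓ a : ℕ) : ℕ := ℓ ^ a.factorization ℓ

theorem result (F : Type) [Field F] [Finite F] (k : Type) [Field k] [Algebra (RatFunc F) k]
    [FiniteDimensional (RatFunc F) k] (n r : ℕ) (d : Fin r → ℕ)
    (f : Fin r → MvPolynomial (Fin n) k) (hd : ∀ j, 0 < d j)
    (hf : ∀ j, (f j).IsHomogeneous (d j)) (ℓ : ℕ) (hℓ : ℓ.Prime)
    (hn : ∑ j, (2 * ∑ i ∈ Finset.Ico 1 (d j), i * part ℓ i + d j * part ℓ (d j)) <
      n + 2 * part ℓ 2) (x y : Fin n → k) (hx : ∀ j, eval x (f j) = 0)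
    (hy : ∀ j, eval y (f j) = 0) :
    ∃ (L : Type) (_ : Field L) (_ : Algebra k L), FiniteDimensional k L ∧
      ¬ ℓ ∣ Module.finrank k L ∧
      Joined (fun j => map (algebraMap k L) (f j)) (fun i => algebraMap k L (x i))
        (fun i => algebraMap k L (y i)) := by
  haveI : Fact ℓ.Prime := ⟨hℓ⟩
  obtain ⟨p, hchar⟩ := CharP.exists F
  haveI : Fact p.Prime := ⟨CharP.char_is_prime F p⟩
  letI : Algebra (ZMod p) F := ZMod.algebra F p
  obtain ⟨L, _, _, hfin, hdeg, z, hz, hz2⟩ := Pool.Agent.Q146.TL.Cst.cst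
    Pool.Agent.Q177.TL.Alg.alg Pool.Agent.Q146.TL.Tr.tr
    (fun d => ℓ ^ d.factorization ℓ) ℓ F (by
      intro κ _ _ halg hκ
      letI : Algebra (ZMod p) κ := ((algebraMap F κ).comp (algebraMap (ZMod p) F)).toAlgebra
      haveI : IsScalarTower (ZMod p) F κ := IsScalarTower.of_algebraMap_eq fun _ => rfl
      haveI : Algebra.IsAlgebraic (ZMod p) κ := Algebra.IsAlgebraic.trans (ZMod p) F κ
      exact Pool.Agent.Q49.TL.s_TK Pool.Agent.Q177.TL.Line.line p ℓ κ inferInstance hκ)
    k (Option (Fin n))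
    (Σ j : Fin r, Fin (d j) ⊕ Fin (d j - 1)) (Pool.Agent.Q49.TL.wo (Fin n))
    (Pool.Agent.Q49.TL.de d) (Pool.Agent.Q49.TL.fe d f x y) Pool.Agent.Q49.TL.wo_pos
    (Pool.Agent.Q49.TL.de_pos d) (Pool.Agent.Q49.TL.fe_hom d f x y) (by
      have h1 := Pool.Agent.Q49.TL.cost (fun i => i * ℓ ^ i.factorization ℓ) d hd
      have h2 := Pool.Agent.Q49.TL.cost_w (ι := Fin n) (fun i => i * ℓ ^ i.factorization ℓ)
      rw [h1, h2, Fintype.card_fin]
      have h3 : 1 * ℓ ^ (1 : ℕ).factorization ℓ = 1 := by simp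
      rw [h3, mul_one, add_comm]
      exact hn)
  exact ⟨L, inferInstance, inferInstance, hfin, hdeg,
    Pool.Agent.Q49.TL.link_ext d f hf x y hx hy z hz hz2⟩

end Pool.Agent.Results.MP_bd895b_nt.ConicsPrimeToL
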