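import Pool.Agent.Q177.TL.Cw
import Pool.Agent.Q177.TL.Alg
import Pool.Agent.Q146.TL.Tr
import Pool.Agent.Q49.TL.LinkW
import Pool.Agent.Q225.TL.Loc

set_option autoImplicit false

/-!
# Conics through two points over global function fields and their completions

Let `K` be an algebraic extension of `F(t)` or of `F((t))`, `F` a finite field; for example a
global function field, one of its completions, or a finite extension of such a field. Let `X` be
the common zero set of forms of degrees `d_j` in `n` variables over `K` with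
`∑ d_j (2 d_j ^ 2 + 1) / 3 ≤ n + 3`. Any two points of `X` over `K` are joined over `K` by a
conic in `X` or by two lines in `X`.

Co-authors: helper177 (weighted Chevalley-Warning theorem, algebraic extensions), helper146
(adjunction of a variable), helper225 (local fields) and helper34 (the system of equations for the
conics).
-/

namespace Pool.Agent.Results.MP_bd895b_nt.ConicsThroughTwoPoints

open MvPolynomial

/-- `K` is an algebraic extension of `F(t)` or of `F((t))` for some finite field `F`. -/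
def GlobalOrLocal (K : Type) [Field K] : Prop :=
  ∃ (F : Type) (_ : Field F) (_ : Finite F),
    (∃ _ : Algebra (RatFunc F) K, Algebra.IsAlgebraic (RatFunc F) K) ∨
    (∃ _ : Algebra (LaurentSeries F) K, Algebra.IsAlgebraic (LaurentSeries F) K)

/-- The points `x` and `y` are joined by a conic `x + T z + T ^ 2 u y`, with `u ≠ 0`, in the
variety `f = 0`. -/
def JoinedByConic {ι κ K : Type} [Field K] (f : κ → MvPolynomial ι K) (x y : ι → K) : Prop :=
  ∃ (z : ι → K) (u : K), u ≠ 0 ∧ ∀ j, aeval (fun i => Polynomial.C (x i) +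
      Polynomial.C (z i) * Polynomial.X + Polynomial.C (u * y i) * Polynomial.X ^ 2) (f j) = 0

/-- The points `x` and `y` are joined by the lines `x + T z` and `z + T y` in the variety
`f = 0`. -/
def JoinedByTwoLines {ι κ K : Type} [Field K] (f : κ → MvPolynomial ι K) (x y : ι → K) : Prop :=
  ∃ z : ι → K, z ≠ 0 ∧
    (∀ j, aeval (fun i => Polynomial.C (x i) + Polynomial.C (z i) * Polynomial.X) (f j) = 0) ∧
    ∀ j, aeval (fun i => Polynomial.C (z i) + Polynomial.C (y i) * Polynomial.X) (f j) = 0

theorem sum_sq (d : ℕ) (hd : 0 < d) :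
    3 * (2 * ∑ i ∈ Finset.Ico 1 d, i * i + d * d) = d * (2 * d ^ 2 + 1) := by
  induction d with
  | zero => omega
  | succ n ih =>
    rcases Nat.eq_zero_or_pos n with h | h
    · subst h; simp
    · have h1 := ih h
      rw [Finset.sum_Ico_succ_top (by omega : 1 ≤ n)]
      nlinarith [h1]

theorem result (K : Type) [Field K] (hK : GlobalOrLocal K) (ι κ : Type) [Fintype ι] [Fintype κ]
    (d : κ → ℕ) (f : κ → MvPolynomial ι K) (hd : ∀ j, 0 < d j)
    (hf : ∀ j, (f j).IsHomogeneous (d j))
    (h : ∑ j, d j * (2 * d j ^ 2 + 1) ≤ 3 * (Fintype.card ι + 3)) (x y : ι → K)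
    (hx : ∀ j, eval x (f j) = 0) (hy : ∀ j, eval y (f j) = 0) :
    JoinedByConic f x y ∨ JoinedByTwoLines f x y := by
  have hT : Pool.Agent.Q49.TL.Tsen (fun d => d * d) K := by
    obtain ⟨F, _, _, hF | hF⟩ := hK
    · obtain ⟨_, _⟩ := hF
      exact Pool.Agent.Q177.TL.Alg.alg _ (RatFunc F) K
        (Pool.Agent.Q146.TL.Tr.tr _ F (Pool.Agent.Q177.TL.Cw.cw F))
    · obtain ⟨_, _⟩ := hF
      exact Pool.Agent.Q177.TL.Alg.alg _ (LaurentSeries F) K
        (Pool.Agent.Q225.TL.loc Pool.Agent.Q177.TL.Cw.cw F)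
  refine Pool.Agent.Q49.TL.linkW (fun d => d * d) K hT ι κ d f hd hf ?_ x y hx hy
  have h1 : 3 * ∑ j, (2 * ∑ i ∈ Finset.Ico 1 (d j), i * i + d j * d j) ≤
      3 * (Fintype.card ι + 3) := by
    rw [Finset.mul_sum]
    refine le_trans (le_of_eq ?_) h
    exact Finset.sum_congr rfl fun j _ => sum_sq (d j) (hd j)
  have h2 : ∑ j, (2 * ∑ i ∈ Finset.Ico 1 (d j), i * i + d j * d j) ≤ Fintype.card ι + 3 :=
    Nat.le_of_mul_le_mul_left h1 (by norm_num)
  refine lt_of_le_of_lt h2 ?_
  change Fintype.card ι + 3 < 2 * 2 + Fintype.card ι * (1 * 1)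
  omega

end Pool.Agent.Results.MP_bd895b_nt.ConicsThroughTwoPoints
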