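import Pool.Agent.Q51.ZC.KZer5

/-!
# The degrees in the local-global complex for zero-cycles on the twists of Fermat curves

Let `n` be odd, `1 < m`, `m ∣ n`, let `a, b` be integers such that `a X ^ n + b` is irreducible over `ℚ`, and let
`C_D : D y ^ m = a x ^ n + b w ^ n`, a smooth curve in the weighted projective plane of weights `(1, 1, n/m)` (for
`m = n` the twists of a Fermat curve).

**Theorem.** For 100 percent of the everywhere locally soluble curves `C_D` with squarefree `D` (all but
`C (log X)^(-δ) E(X)`, if `E(X)` is the number of them with `|D| ≤ X`) the following holds for all number fields `K`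
and all prime factors `q` of `m` which do not divide `[K : ℚ]`.  Let `(z_v)` be a family of zero-cycles over the
completions of `K`, of arbitrary degrees, such that the sum of the local invariants at the `z_v` is zero for the
classes of order `q` of `Br(K)` and for the restrictions of the classes `A_χ` to `(C_D)_K`.  Then all degrees
`deg z_v` (`v` finite) are divisible by `q`.  The degrees of all closed points of `(C_D)_K` are divisible by `q`, too.

Since `A_χ` and the classes of order `q` of `Br(K)` only depend on the images in `CH_0 / q`, this holds for the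
elements of `ker b` in the complex of the problem, for the curve `(C_D)_K`: their degrees, elements of `ℤ^`, are
divisible by `q`, as are those of the image of `a`, although `C_D` has points over all completions.  Let `m` be
squarefree.  Then `C_D` has a closed point of degree exactly `m`, and so the degrees of `ker b` and of `im a` are the
same group `m ℤ^`: the complex for the curves `C_D` over `ℚ` is exact on degrees, unconditionally.

`A_χ = Cor_{L/ℚ} (χ, x ^ (n/q) - θ w ^ (n/q))`, `L = ℚ[X]/(a X ^ q + b) = ℚ(θ)`, `χ` a character of order `q` of the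
idele class group of `L` which is trivial on the ideles of `ℚ`.  The completions of `K` at the places above `p` are
the residue fields `K_v` of `ℚ_p ⊗ K`.  The classes of order `q` of `Br(K)` are given by their local invariants
`c_v ∈ ℤ/q` at the finite places, almost all of them zero, with sum zero (`q` is odd).

The definitions are in `Pool/Agent/Q51/ZC/Zer.lean`, `Pool/Agent/Q51/ZC/KZer.lean` and `Pool/Agent/Q51/ZC/KZer4.lean`
(`FamilyOver`, `OrthogonalToConstants`, `KernelDegreeNotDivisible`, `ClosedDegreeNotDivisible`, `numDegrees`).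

(helper51, with lemmas of helper38, helper86, helper92, helper150, helper190, helper195, helper210, helper241,
helper257, helper299, and for the projects SE, EL and EB of helper26, helper38, helper52, helper58, helper65,
helper68, helper91, helper154, helper187, helper198, helper210, helper239, helper241, helper247, helper251,
helper277.)
-/

set_option autoImplicit false

namespace Pool.Agent.Results.MP_bd895b_nt.DegreesOnFermatTwists

open Polynomial Pool.Agent.Q51.ZC
open Pool.Agent.Q51.SE (ClassCharacter)

theorem result (a b : ℤ) (n m : ℕ) (hn : Odd n) (hm : 1 < m) (hmn : m ∣ n)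
    (hirr : Irreducible (C (a : ℚ) * X ^ n + C (b : ℚ))) :
    (∃ δ C : ℝ, 0 < δ ∧ ∀ X : ℝ, 3 ≤ X →
      numDegrees a b n m X ≤ C * Real.log X ^ (-δ) * numLocSoluble a b n m X) ∧
    ((∃ D : ℤ, Squarefree D ∧ Soluble a b n m D) → ∃ c X₀ : ℝ, 0 < c ∧ ∀ X : ℝ, X₀ ≤ X →
      c * X / Real.log X * Real.exp (sumRoots a b n X) ≤ numLocSoluble a b n m X) ∧
    (∀ D : ℤ, D ≠ 0 → Squarefree m → ¬ ClosedDegreeNotDivisible a b n m D →
      ∃ (K : Type) (_ : Field K) (_ : NumberField K), Module.finrank ℚ K = m ∧
        Nonempty (CPoint a b n m D K)) ∧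
    ∀ D : ℤ, D ≠ 0 → ∀ q : ℕ, q.Prime → q ∣ m →
      (∀ p : Nat.Primes, ClosedInvariantsWellDefined a b n m D q p) ∧
      ∀ (K : Type) [Field K] [NumberField K],
        (∀ (z : FamilyOver a b n m D K) (χ : ClassCharacter (fq a b q) q),
          {p : Nat.Primes | ∃ v, (z p v).inv χ ≠ 0}.Finite) ∧
        ∀ P : CPoint a b n m D K, P.adelic.Orthogonal q := by
  obtain ⟨h1, -, h3⟩ := main hn hm hmn hirr
  have hirr' := hirr
  rw [← fq_map] at hirr'
  have hn0 := hn.pos
  obtain ⟨ha, hb⟩ := fq_ne (by
    have := Nat.le_of_dvd hn0 hmn
    omega) hirr'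
  refine ⟨main_degrees hn hm hmn hirr, h3, fun D hD hsq h => ?_, fun D hD q hq hqm =>
    ⟨(h1 D hD q hq hqm).1, fun K _ _ => ⟨fun z χ => ?_, fun P =>
      adelic_orthogonal ha hq hn0 (hqm.trans hmn) hqm
        (fq_irr hn0 (hqm.trans hmn) hirr') hD K P⟩⟩⟩
  · refine (index_eq hn0 (by omega) ha hsq hD fun h2 => h ?_).2
    obtain ⟨M, hM, hMn, hP, q, hq, hqm, hd⟩ := h2
    refine ⟨q, hq, hqm, ℚ, inferInstance, inferInstance, ?_, M, hM, hMn, inferInstance, hd, hP⟩
    rw [Module.finrank_self]
    exact hq.one_lt.ne' ∘ Nat.dvd_one.mp
  · exact fin_supp_over ha hq hn0 (hqm.trans hmn) hqm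
      (fq_irr hn0 (hqm.trans hmn) hirr') hD K z χ

end Pool.Agent.Results.MP_bd895b_nt.DegreesOnFermatTwists
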